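import Pool.Agent.LibPA.Final

/-!
# Nonstandard models of completions of `PA` computing no enumeration of `Rep(T)`

We prove that every completion `T` of Peano arithmetic has a nonstandard model with universe `ℕ`
whose atomic diagram computes no enumeration of the family `Rep(T)` of sets representable in `T`.

Outline. Let `S = Rep(T)`, a Scott set. Call `X` good if every class of positive measure which is
co-enumerable in `X` together with a member of `S` has a member in `S`. Members of `S` are good
(weak Koenig's lemma in `S`). The key extension theorem (`extend` in `LibPA/Good.lean`) says: if `X`
is good and `U` is a co-enumerable (relative to `X` and `S`) relation between `w` and `Z` such that
the set of second components has positive measure, then there is a solution `(w, Z)` with `w` good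
and `Z` not in `S`. We then build a generic elementary substructure of a countably saturated model
of `T`; the conditions are (finite length, formula, good type `w`) where `w` records which finite
basic diagrams can be realized. For a reduction and a condition, a counting argument together with
goodness of `w` gives a member `C` of `S` which avoids all the null classes of sets on which a
column of the reduction can be forced to collapse; if some extension forces a column to be equal
to `C`, the corresponding class has positive measure and the extension theorem gives an extension
forcing this column to be equal to a set outside `S`; otherwise `C` is forced to be different from
all columns.
-/

open FirstOrder FirstOrder.Language Pool.Agent.LibPA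

namespace Pool.Agent.Results.MP_9e051a_lc.EveryCompletion

/-- For every completion `T` of `PA` there is a nonstandard model `A` of `T`, with universe `ℕ`,
such that no enumeration `R` of `Rep(T)` is Turing reducible to the atomic diagram of `A`. -/
theorem result (T : LA.Theory) (hT : IsCompletionOfPA T) :
    ∃ A : LA.Structure ℕ, @Theory.Model LA ℕ A T ∧ IsNonstandard A ∧
      ∀ R : Set ℕ, IsEnumeration R (Rep T) →
        ¬ TuringReducible (charFun R) (charFun (atomicDiagram A)) :=
  main_theorem T hT

end Pool.Agent.Results.MP_9e051a_lc.EveryCompletion
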